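import Pool.Agent.H184.G2.D.FA00
import Pool.Agent.H184.G2.D.FA01
import Pool.Agent.H184.G2.D.FA02
import Pool.Agent.H184.G2.D.FB00
import Pool.Agent.H184.G2.D.FB01
import Pool.Agent.H184.G2.D.FB02
import Pool.Agent.H184.G2.D.FB03
import Pool.Agent.H184.G2.D.FB04
import Pool.Agent.H184.G2.D.FB05
import Pool.Agent.H184.G2.D.FB06
import Pool.Agent.H184.G2.D.FB07
import Pool.Agent.H184.G2.D.FB08
import Pool.Agent.H184.G2.Cls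

set_option autoImplicit false

namespace Pool.Agent.H184.G2.D.FR

open Pool.Agent.H184.G2 Pool.Agent.H184.Gomoku

def hs1 : List Hdr := FA.h0 ++ (FA.h1 ++ (FA.h2 ++ (FA.h3 ++ (FA.h4 ++ (FA.h5 ++ (FA.h6 ++ (FA.h7 ++ (FA.h8 ++ (FA.h9 ++ (FA.h10 ++ (FA.h11 ++ (FA.h12 ++ (FA.h13 ++ (FA.h14 ++ (FA.h15 ++ (FA.h16 ++ (FA.h17 ++ (FA.h18 ++ (FA.h20 ++ (FA.h21 ++ (FA.h22 ++ (FA.h23 ++ (FA.h24 ++ (FA.h25 ++ (FA.h26 ++ (FA.h27 ++ (FA.h28 ++ (FA.h29 ++ (FA.h30 ++ (FA.h31 ++ (FA.h32 ++ (FA.h33 ++ (FA.h34 ++ (FA.h35 ++ (FA.h36 ++ (FA.h37 ++ (FA.h38 ++ (FA.h40 ++ (FA.h41 ++ (FA.h42 ++ (FA.h43 ++ (FA.h44 ++ (FA.h45 ++ (FA.h46 ++ (FA.h47 ++ (FA.h48 ++ (FA.h49 ++ (FA.h50 ++ (FA.h51 ++ (FA.h54 ++ (FA.h55 ++ (FA.h58 ++ (FA.h61 ++ (FA.h62 ++ (FA.h64 ++ (FA.h68 ++ (FA.h69 ++ (FA.h71 ++ (FA.h73 ++ (FA.h77 ++ (FA.h79 ++ (FA.h80 ++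 (FA.h81 ++ (FA.h82 ++ (FA.h84 ++ (FA.h85 ++ (FA.h87 ++ (FA.h89 ++ (FA.h91 ++ (FA.h92 ++ (FA.h93 ++ (FA.h96 ++ (FA.h97 ++ (FA.h102 ++ (FA.h103 ++ (FA.h106 ++ (FA.h110 ++ (FA.h114 ++ (FA.h117 ++ (FA.h118 ++ (FA.h119)))))))))))))))))))))))))))))))))))))))))))))))))))))))))))))))))))))))))))))))))

theorem hok1 : ∀ h ∈ hs1, Holds h := happ FA.ok0 (happ FA.ok1 (happ FA.ok2 (happ FA.ok3 (happ FA.ok4 (happ FA.ok5 (happ FA.ok6 (happ FA.ok7 (happ FA.ok8 (happ FA.ok9 (happ FA.ok10 (happ FA.ok11 (happ FA.ok12 (happ FA.ok13 (happ FA.ok14 (happ FA.ok15 (happ FA.ok16 (happ FA.ok17 (happ FA.ok18 (happ FA.ok20 (happ FA.ok21 (happ FA.ok22 (happ FA.ok23 (happ FA.ok24 (happ FA.ok25 (happ FA.ok26 (happ FA.ok27 (happ FA.ok28 (happ FA.ok29 (happ FA.ok30 (happ FA.ok31 (happ FA.ok32 (happ FA.ok33 (happ FA.ok34 (happ FA.ok35 (happ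 FA.ok36 (happ FA.ok37 (happ FA.ok38 (happ FA.ok40 (happ FA.ok41 (happ FA.ok42 (happ FA.ok43 (happ FA.ok44 (happ FA.ok45 (happ FA.ok46 (happ FA.ok47 (happ FA.ok48 (happ FA.ok49 (happ FA.ok50 (happ FA.ok51 (happ FA.ok54 (happ FA.ok55 (happ FA.ok58 (happ FA.ok61 (happ FA.ok62 (happ FA.ok64 (happ FA.ok68 (happ FA.ok69 (happ FA.ok71 (happ FA.ok73 (happ FA.ok77 (happ FA.ok79 (happ FA.ok80 (happ FA.ok81 (happ FA.ok82 (happ FA.ok84 (happ FA.ok85 (happ FA.ok87 (happ FA.ok89 (happ FA.ok91 (happ FA.ok92 (happ FA.ok93 (happ FA.ok96 (happ FA.ok97 (happ FA.ok102 (happ FA.ok103 (happ FA.ok106 (happ FA.ok110 (happ FA.ok114 (happ FA.ok117 (happ FA.ok118 (FA.ok119)))))))))))))))))))))))))))))))))))))))))))))))))))))))))))))))))))))))))))))))))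

def hs2 : List Hdr := FB.h0 ++ (FB.h1 ++ (FB.h2 ++ (FB.h3 ++ (FB.h4 ++ (FB.h5 ++ (FB.h6 ++ (FB.h8 ++ (FB.h9 ++ (FB.h12 ++ (FB.h13 ++ (FB.h16 ++ (FB.h18 ++ (FB.h21 ++ (FB.h22 ++ (FB.h24 ++ (FB.h27 ++ (FB.h28 ++ (FB.h29 ++ (FB.h32 ++ (FB.h34 ++ (FB.h38 ++ (FB.h42 ++ (FB.h45 ++ (FB.h46 ++ (FB.h48 ++ (FB.h49 ++ (FB.h50 ++ (FB.h51 ++ (FB.h52 ++ (FB.h55 ++ (FB.h61 ++ (FB.h65 ++ (FB.h68 ++ (FB.h74 ++ (FB.h78 ++ (FB.h82 ++ (FB.h83 ++ (FB.h87 ++ (FB.h95 ++ (FB.h97 ++ (FB.h101 ++ (FB.h104 ++ (FB.h105 ++ (FB.h108 ++ (FB.h112 ++ (FB.h113 ++ (FB.h116 ++ (FB.h117 ++ (FB.h120 ++ (FB.h121 ++ (FB.h122 ++ (FB.h125 ++ (FB.h126 ++ (FB.h127 ++ (FB.h130 ++ (FB.h131 ++ (FB.h132 ++ (FB.h137 ++ (FB.h138 ++ (FB.h139 ++ (FB.h144 ++ (FB.h147 ++ (FB.h148 ++ (FB.h149 ++ (FB.h152 ++ (FB.h154 ++ (FB.h156 ++ (FB.h157 ++ (FB.h158 ++ (FB.h159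 ++ (FB.h161 ++ (FB.h162 ++ (FB.h163 ++ (FB.h166 ++ (FB.h168 ++ (FB.h171 ++ (FB.h172 ++ (FB.h173 ++ (FB.h177 ++ (FB.h178 ++ (FB.h179 ++ (FB.h185 ++ (FB.h186 ++ (FB.h188 ++ (FB.h189 ++ (FB.h193 ++ (FB.h196 ++ (FB.h200 ++ (FB.h201 ++ (FB.h202 ++ (FB.h204 ++ (FB.h205 ++ (FB.h209 ++ (FB.h211 ++ (FB.h212 ++ (FB.h213 ++ (FB.h214 ++ (FB.h216 ++ (FB.h218 ++ (FB.h220 ++ (FB.h225 ++ (FB.h227 ++ (FB.h235 ++ (FB.h237 ++ (FB.h243 ++ (FB.h244 ++ (FB.h252 ++ (FB.h256 ++ (FB.h258 ++ (FB.h261 ++ (FB.h262 ++ (FB.h265 ++ (FB.h269 ++ (FB.h270 ++ (FB.h272 ++ (FB.h274 ++ (FB.h277 ++ (FB.h283 ++ (FB.h284 ++ (FB.h290 ++ (FB.h291 ++ (FB.h292 ++ (FB.h294 ++ (FB.h295 ++ (FB.h297 ++ (FB.h302 ++ (FB.h304 ++ (FB.h305 ++ (FB.h309 ++ (FB.h310 ++ (FB.h312 ++ (FB.h316 ++ (FB.h317 ++ (FB.h320 ++ (FB.h324 ++ (FB.h325 ++ (FB.h328 ++ (FB.h332 ++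 (FB.h333 ++ (FB.h334 ++ (FB.h337 ++ (FB.h340 ++ (FB.h344 ++ (FB.h346 ++ (FB.h350 ++ (FB.h353 ++ (FB.h356 ++ (FB.h358 ++ (FB.h359 ++ (FB.h362 ++ (FB.h366)))))))))))))))))))))))))))))))))))))))))))))))))))))))))))))))))))))))))))))))))))))))))))))))))))))))))))))))))))))))))))))))))))))))))))))))))))))))

theorem hok2 : ∀ h ∈ hs2, Holds h := happ FB.ok0 (happ FB.ok1 (happ FB.ok2 (happ FB.ok3 (happ FB.ok4 (happ FB.ok5 (happ FB.ok6 (happ FB.ok8 (happ FB.ok9 (happ FB.ok12 (happ FB.ok13 (happ FB.ok16 (happ FB.ok18 (happ FB.ok21 (happ FB.ok22 (happ FB.ok24 (happ FB.ok27 (happ FB.ok28 (happ FB.ok29 (happ FB.ok32 (happ FB.ok34 (happ FB.ok38 (happ FB.ok42 (happ FB.ok45 (happ FB.ok46 (happ FB.ok48 (happ FB.ok49 (happ FB.ok50 (happ FB.ok51 (happ FB.ok52 (happ FB.ok55 (happ FB.ok61 (happ FB.ok65 (happ FB.ok68 (happ FB.ok74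 (happ FB.ok78 (happ FB.ok82 (happ FB.ok83 (happ FB.ok87 (happ FB.ok95 (happ FB.ok97 (happ FB.ok101 (happ FB.ok104 (happ FB.ok105 (happ FB.ok108 (happ FB.ok112 (happ FB.ok113 (happ FB.ok116 (happ FB.ok117 (happ FB.ok120 (happ FB.ok121 (happ FB.ok122 (happ FB.ok125 (happ FB.ok126 (happ FB.ok127 (happ FB.ok130 (happ FB.ok131 (happ FB.ok132 (happ FB.ok137 (happ FB.ok138 (happ FB.ok139 (happ FB.ok144 (happ FB.ok147 (happ FB.ok148 (happ FB.ok149 (happ FB.ok152 (happ FB.ok154 (happ FB.ok156 (happ FB.ok157 (happ FB.ok158 (happ FB.ok159 (happ FB.ok161 (happ FB.ok162 (happ FB.ok163 (happ FB.ok166 (happ FB.ok168 (happ FB.ok171 (happ FB.ok172 (happ FB.ok173 (happ FB.ok177 (happ FB.ok178 (happ FB.ok179 (happ FB.ok185 (happ FB.ok186 (happ FB.ok188 (happ FB.ok189 (happ FB.ok193 (happ FB.ok196 (happ FB.ok200 (happ FB.ok201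 (happ FB.ok202 (happ FB.ok204 (happ FB.ok205 (happ FB.ok209 (happ FB.ok211 (happ FB.ok212 (happ FB.ok213 (happ FB.ok214 (happ FB.ok216 (happ FB.ok218 (happ FB.ok220 (happ FB.ok225 (happ FB.ok227 (happ FB.ok235 (happ FB.ok237 (happ FB.ok243 (happ FB.ok244 (happ FB.ok252 (happ FB.ok256 (happ FB.ok258 (happ FB.ok261 (happ FB.ok262 (happ FB.ok265 (happ FB.ok269 (happ FB.ok270 (happ FB.ok272 (happ FB.ok274 (happ FB.ok277 (happ FB.ok283 (happ FB.ok284 (happ FB.ok290 (happ FB.ok291 (happ FB.ok292 (happ FB.ok294 (happ FB.ok295 (happ FB.ok297 (happ FB.ok302 (happ FB.ok304 (happ FB.ok305 (happ FB.ok309 (happ FB.ok310 (happ FB.ok312 (happ FB.ok316 (happ FB.ok317 (happ FB.ok320 (happ FB.ok324 (happ FB.ok325 (happ FB.ok328 (happ FB.ok332 (happ FB.ok333 (happ FB.ok334 (happ FB.ok337 (happ FB.ok340 (happ FB.ok344 (happ FB.ok346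 (happ FB.ok350 (happ FB.ok353 (happ FB.ok356 (happ FB.ok358 (happ FB.ok359 (happ FB.ok362 (FB.ok366)))))))))))))))))))))))))))))))))))))))))))))))))))))))))))))))))))))))))))))))))))))))))))))))))))))))))))))))))))))))))))))))))))))))))))))))))))))))

def zl : List ℕ := [457, 458, 460, 462, 463, 464, 465, 486, 488, 489, 490, 491, 492, 493, 494, 495, 496, 519, 520, 521, 522, 523, 524, 525, 526, 527, 528, 529, 553, 554, 556, 557, 558, 559, 561, 585, 586, 587, 590, 591, 618, 622, 623, 655, 687]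

theorem fok : farOK hs1 hs2 zl 461 459 GF GV 19 = true := by decide +kernel

theorem row : ∃ n, ∀ w : Cell, 6 ≤ w.1 → Row n w := far_row hok1 hok2 fok

end Pool.Agent.H184.G2.D.FR
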