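import Pool.Agent.H184.G2.D.W1000
import Pool.Agent.H184.G2.D.W1001
import Pool.Agent.H184.G2.D.W1002
import Pool.Agent.H184.G2.D.W1003
import Pool.Agent.H184.G2.D.W1004
import Pool.Agent.H184.G2.D.W1005
import Pool.Agent.H184.G2.Cls

set_option autoImplicit false

namespace Pool.Agent.H184.G2.D.W10

open Pool.Agent.H184.G2 Pool.Agent.H184.Gomoku

def hs : List Hdr := h0 ++ (h1 ++ (h2 ++ (h3 ++ (h4 ++ (h5 ++ (h6 ++ (h7 ++ (h8 ++ (h9 ++ (h15 ++ (h16 ++ (h17 ++ (h18 ++ (h19 ++ (h20 ++ (h21 ++ (h22 ++ (h31 ++ (h32 ++ (h33 ++ (h35 ++ (h38 ++ (h97 ++ (h102 ++ (h103 ++ (h104 ++ (h105 ++ (h106 ++ (h108 ++ (h110 ++ (h111 ++ (h112 ++ (h113 ++ (h114 ++ (h115 ++ (h116 ++ (h117 ++ (h118 ++ (h228)))))))))))))))))))))))))))))))))))))))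

theorem hok : ∀ h ∈ hs, Holds h := happ ok0 (happ ok1 (happ ok2 (happ ok3 (happ ok4 (happ ok5 (happ ok6 (happ ok7 (happ ok8 (happ ok9 (happ ok15 (happ ok16 (happ ok17 (happ ok18 (happ ok19 (happ ok20 (happ ok21 (happ ok22 (happ ok31 (happ ok32 (happ ok33 (happ ok35 (happ ok38 (happ ok97 (happ ok102 (happ ok103 (happ ok104 (happ ok105 (happ ok106 (happ ok108 (happ ok110 (happ ok111 (happ ok112 (happ ok113 (happ ok114 (happ ok115 (happ ok116 (happ ok117 (happ ok118 (ok228)))))))))))))))))))))))))))))))))))))))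

theorem cok : classOK hs 528 561 529 GK = true := by decide +kernel

theorem row : ∃ n, Row n (((1 : ℕ) : ℤ), ((0 : ℕ) : ℤ)) := cls_kh hok cok (by decide) rfl rfl rfl

end Pool.Agent.H184.G2.D.W10
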