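import Pool.Agent.H184.G2.D.W1100
import Pool.Agent.H184.G2.D.W1101
import Pool.Agent.H184.G2.D.W1102
import Pool.Agent.H184.G2.D.W1103
import Pool.Agent.H184.G2.D.W1104
import Pool.Agent.H184.G2.Cls

set_option autoImplicit false

namespace Pool.Agent.H184.G2.D.W11

open Pool.Agent.H184.G2 Pool.Agent.H184.Gomoku

def hs : List Hdr := h0 ++ (h1 ++ (h2 ++ (h3 ++ (h4 ++ (h5 ++ (h6 ++ (h7 ++ (h8 ++ (h9 ++ (h10 ++ (h11 ++ (h12 ++ (h13 ++ (h14 ++ (h15 ++ (h16 ++ (h17 ++ (h18 ++ (h19 ++ (h20 ++ (h21 ++ (h22 ++ (h23 ++ (h25 ++ (h28 ++ (h32 ++ (h34 ++ (h35 ++ (h36 ++ (h37 ++ (h38 ++ (h39 ++ (h42 ++ (h47 ++ (h49 ++ (h51 ++ (h52 ++ (h53 ++ (h55 ++ (h57 ++ (h62 ++ (h74 ++ (h76 ++ (h77 ++ (h78 ++ (h80 ++ (h81 ++ (h83 ++ (h85 ++ (h87 ++ (h88 ++ (h89 ++ (h91 ++ (h93 ++ (h98 ++ (h100 ++ (h102 ++ (h103 ++ (h104 ++ (h105 ++ (h106 ++ (h107 ++ (h109 ++ (h111 ++ (h112 ++ (h114 ++ (h115 ++ (h116 ++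 (h117 ++ (h118 ++ (h119 ++ (h121 ++ (h122 ++ (h123 ++ (h124 ++ (h125 ++ (h126 ++ (h127 ++ (h128 ++ (h130 ++ (h163 ++ (h168 ++ (h182 ++ (h210))))))))))))))))))))))))))))))))))))))))))))))))))))))))))))))))))))))))))))))))))))

theorem hok : ∀ h ∈ hs, Holds h := happ ok0 (happ ok1 (happ ok2 (happ ok3 (happ ok4 (happ ok5 (happ ok6 (happ ok7 (happ ok8 (happ ok9 (happ ok10 (happ ok11 (happ ok12 (happ ok13 (happ ok14 (happ ok15 (happ ok16 (happ ok17 (happ ok18 (happ ok19 (happ ok20 (happ ok21 (happ ok22 (happ ok23 (happ ok25 (happ ok28 (happ ok32 (happ ok34 (happ ok35 (happ ok36 (happ ok37 (happ ok38 (happ ok39 (happ ok42 (happ ok47 (happ ok49 (happ ok51 (happ ok52 (happ ok53 (happ ok55 (happ ok57 (happ ok62 (happ ok74 (happ ok76 (happ ok77 (happ ok78 (happ ok80 (happ ok81 (happ ok83 (happ ok85 (happ ok87 (happ ok88 (happ ok89 (happ ok91 (happ ok93 (happ ok98 (happ ok100 (happ ok102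 (happ ok103 (happ ok104 (happ ok105 (happ ok106 (happ ok107 (happ ok109 (happ ok111 (happ ok112 (happ ok114 (happ ok115 (happ ok116 (happ ok117 (happ ok118 (happ ok119 (happ ok121 (happ ok122 (happ ok123 (happ ok124 (happ ok125 (happ ok126 (happ ok127 (happ ok128 (happ ok130 (happ ok163 (happ ok168 (happ ok182 (ok210))))))))))))))))))))))))))))))))))))))))))))))))))))))))))))))))))))))))))))))))))))

theorem cok : classOK hs 528 496 561 ONES = true := by decide +kernel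

theorem row : ∃ n, Row n (((1 : ℕ) : ℤ), ((1 : ℕ) : ℤ)) := cls_all hok cok (by decide)

end Pool.Agent.H184.G2.D.W11
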