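import Pool.Agent.H184.G2.D.W2000
import Pool.Agent.H184.G2.D.W2001
import Pool.Agent.H184.G2.Cls

set_option autoImplicit false

namespace Pool.Agent.H184.G2.D.W20

open Pool.Agent.H184.G2 Pool.Agent.H184.Gomoku

def hs : List Hdr := h0 ++ (h1 ++ (h2 ++ (h4 ++ (h6 ++ (h8 ++ (h10 ++ (h12 ++ (h15 ++ (h16 ++ (h17 ++ (h18 ++ (h19 ++ (h21 ++ (h23 ++ (h25 ++ (h27 ++ (h30 ++ (h33 ++ (h35 ++ (h36 ++ (h37 ++ (h38 ++ (h39 ++ (h40 ++ (h45 ++ (h48 ++ (h49 ++ (h51 ++ (h52 ++ (h55 ++ (h56 ++ (h57 ++ (h59 ++ (h60 ++ (h62 ++ (h63 ++ (h64 ++ (h65 ++ (h67 ++ (h69 ++ (h70 ++ (h71 ++ (h72 ++ (h73 ++ (h74 ++ (h75))))))))))))))))))))))))))))))))))))))))))))))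

theorem hok : ∀ h ∈ hs, Holds h := happ ok0 (happ ok1 (happ ok2 (happ ok4 (happ ok6 (happ ok8 (happ ok10 (happ ok12 (happ ok15 (happ ok16 (happ ok17 (happ ok18 (happ ok19 (happ ok21 (happ ok23 (happ ok25 (happ ok27 (happ ok30 (happ ok33 (happ ok35 (happ ok36 (happ ok37 (happ ok38 (happ ok39 (happ ok40 (happ ok45 (happ ok48 (happ ok49 (happ ok51 (happ ok52 (happ ok55 (happ ok56 (happ ok57 (happ ok59 (happ ok60 (happ ok62 (happ ok63 (happ ok64 (happ ok65 (happ ok67 (happ ok69 (happ ok70 (happ ok71 (happ ok72 (happ ok73 (happ ok74 (ok75))))))))))))))))))))))))))))))))))))))))))))))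

theorem cok : classOK hs 528 526 530 GU = true := by decide +kernel

theorem row : ∃ n, Row n (((2 : ℕ) : ℤ), ((0 : ℕ) : ℤ)) := cls_up hok cok (by decide) rfl rfl rfl

end Pool.Agent.H184.G2.D.W20
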