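import Pool.Agent.H184.G2.D.W2100
import Pool.Agent.H184.G2.D.W2101
import Pool.Agent.H184.G2.Cls

set_option autoImplicit false

namespace Pool.Agent.H184.G2.D.W21

open Pool.Agent.H184.G2 Pool.Agent.H184.Gomoku

def hs : List Hdr := h0 ++ (h1 ++ (h2 ++ (h3 ++ (h4 ++ (h5 ++ (h6 ++ (h7 ++ (h8 ++ (h9 ++ (h10 ++ (h11 ++ (h13 ++ (h14 ++ (h15 ++ (h16 ++ (h17 ++ (h19 ++ (h20 ++ (h22 ++ (h23 ++ (h25 ++ (h26 ++ (h29 ++ (h33 ++ (h37 ++ (h39 ++ (h40 ++ (h41 ++ (h42 ++ (h43 ++ (h44 ++ (h46 ++ (h48 ++ (h50 ++ (h52 ++ (h53 ++ (h54 ++ (h55 ++ (h56 ++ (h61 ++ (h63 ++ (h64 ++ (h65 ++ (h66 ++ (h67 ++ (h71 ++ (h72 ++ (h74 ++ (h76 ++ (h77 ++ (h78 ++ (h80 ++ (h81 ++ (h82 ++ (h83 ++ (h84 ++ (h85 ++ (h86 ++ (h87 ++ (h88 ++ (h89 ++ (h90))))))))))))))))))))))))))))))))))))))))))))))))))))))))))))))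

theorem hok : ∀ h ∈ hs, Holds h := happ ok0 (happ ok1 (happ ok2 (happ ok3 (happ ok4 (happ ok5 (happ ok6 (happ ok7 (happ ok8 (happ ok9 (happ ok10 (happ ok11 (happ ok13 (happ ok14 (happ ok15 (happ ok16 (happ ok17 (happ ok19 (happ ok20 (happ ok22 (happ ok23 (happ ok25 (happ ok26 (happ ok29 (happ ok33 (happ ok37 (happ ok39 (happ ok40 (happ ok41 (happ ok42 (happ ok43 (happ ok44 (happ ok46 (happ ok48 (happ ok50 (happ ok52 (happ ok53 (happ ok54 (happ ok55 (happ ok56 (happ ok61 (happ ok63 (happ ok64 (happ ok65 (happ ok66 (happ ok67 (happ ok71 (happ ok72 (happ ok74 (happ ok76 (happ ok77 (happ ok78 (happ ok80 (happ ok81 (happ ok82 (happ ok83 (happ ok84 (happ ok85 (happ ok86 (happ ok87 (happ ok88 (happ ok89 (ok90))))))))))))))))))))))))))))))))))))))))))))))))))))))))))))))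

theorem cok : classOK hs 528 527 562 ONES = true := by decide +kernel

theorem row : ∃ n, Row n (((2 : ℕ) : ℤ), ((1 : ℕ) : ℤ)) := cls_all hok cok (by decide)

end Pool.Agent.H184.G2.D.W21
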