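import Pool.Agent.H184.G2.D.W2200
import Pool.Agent.H184.G2.D.W2201
import Pool.Agent.H184.G2.Cls

set_option autoImplicit false

namespace Pool.Agent.H184.G2.D.W22

open Pool.Agent.H184.G2 Pool.Agent.H184.Gomoku

def hs : List Hdr := h0 ++ (h1 ++ (h2 ++ (h3 ++ (h4 ++ (h7 ++ (h8 ++ (h9 ++ (h10 ++ (h11 ++ (h13 ++ (h14 ++ (h15 ++ (h16 ++ (h17 ++ (h18 ++ (h20 ++ (h23 ++ (h24 ++ (h25 ++ (h26 ++ (h30 ++ (h31 ++ (h33 ++ (h38 ++ (h39 ++ (h41 ++ (h44 ++ (h47 ++ (h49 ++ (h51 ++ (h52 ++ (h53 ++ (h54 ++ (h58 ++ (h60 ++ (h61 ++ (h62 ++ (h64 ++ (h66 ++ (h67 ++ (h69 ++ (h70 ++ (h72 ++ (h73 ++ (h74 ++ (h75 ++ (h76 ++ (h77 ++ (h78 ++ (h79 ++ (h80 ++ (h81 ++ (h82 ++ (h83))))))))))))))))))))))))))))))))))))))))))))))))))))))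

theorem hok : ∀ h ∈ hs, Holds h := happ ok0 (happ ok1 (happ ok2 (happ ok3 (happ ok4 (happ ok7 (happ ok8 (happ ok9 (happ ok10 (happ ok11 (happ ok13 (happ ok14 (happ ok15 (happ ok16 (happ ok17 (happ ok18 (happ ok20 (happ ok23 (happ ok24 (happ ok25 (happ ok26 (happ ok30 (happ ok31 (happ ok33 (happ ok38 (happ ok39 (happ ok41 (happ ok44 (happ ok47 (happ ok49 (happ ok51 (happ ok52 (happ ok53 (happ ok54 (happ ok58 (happ ok60 (happ ok61 (happ ok62 (happ ok64 (happ ok66 (happ ok67 (happ ok69 (happ ok70 (happ ok72 (happ ok73 (happ ok74 (happ ok75 (happ ok76 (happ ok77 (happ ok78 (happ ok79 (happ ok80 (happ ok81 (happ ok82 (ok83))))))))))))))))))))))))))))))))))))))))))))))))))))))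

theorem cok : classOK hs 528 496 594 ONES = true := by decide +kernel

theorem row : ∃ n, Row n (((2 : ℕ) : ℤ), ((2 : ℕ) : ℤ)) := cls_all hok cok (by decide)

end Pool.Agent.H184.G2.D.W22
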