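import Pool.Agent.H184.G2.D.W3000
import Pool.Agent.H184.G2.D.W3001
import Pool.Agent.H184.G2.Cls

set_option autoImplicit false

namespace Pool.Agent.H184.G2.D.W30

open Pool.Agent.H184.G2 Pool.Agent.H184.Gomoku

def hs : List Hdr := h0 ++ (h1 ++ (h3 ++ (h6 ++ (h10 ++ (h12 ++ (h15 ++ (h18 ++ (h19 ++ (h20 ++ (h21 ++ (h22 ++ (h23 ++ (h25 ++ (h29 ++ (h31 ++ (h32 ++ (h33 ++ (h36 ++ (h37 ++ (h41 ++ (h42 ++ (h45 ++ (h46 ++ (h47 ++ (h48 ++ (h50 ++ (h51 ++ (h53 ++ (h54 ++ (h55 ++ (h56 ++ (h57 ++ (h58 ++ (h59 ++ (h60 ++ (h61))))))))))))))))))))))))))))))))))))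

theorem hok : ∀ h ∈ hs, Holds h := happ ok0 (happ ok1 (happ ok3 (happ ok6 (happ ok10 (happ ok12 (happ ok15 (happ ok18 (happ ok19 (happ ok20 (happ ok21 (happ ok22 (happ ok23 (happ ok25 (happ ok29 (happ ok31 (happ ok32 (happ ok33 (happ ok36 (happ ok37 (happ ok41 (happ ok42 (happ ok45 (happ ok46 (happ ok47 (happ ok48 (happ ok50 (happ ok51 (happ ok53 (happ ok54 (happ ok55 (happ ok56 (happ ok57 (happ ok58 (happ ok59 (happ ok60 (ok61))))))))))))))))))))))))))))))))))))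

theorem cok : classOK hs 528 527 531 GU = true := by decide +kernel

theorem row : ∃ n, Row n (((3 : ℕ) : ℤ), ((0 : ℕ) : ℤ)) := cls_up hok cok (by decide) rfl rfl rfl

end Pool.Agent.H184.G2.D.W30
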