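import Pool.Agent.H184.G2.D.W3200
import Pool.Agent.H184.G2.D.W3201
import Pool.Agent.H184.G2.Cls

set_option autoImplicit false

namespace Pool.Agent.H184.G2.D.W32

open Pool.Agent.H184.G2 Pool.Agent.H184.Gomoku

def hs : List Hdr := h0 ++ (h1 ++ (h2 ++ (h3 ++ (h4 ++ (h7 ++ (h8 ++ (h9 ++ (h10 ++ (h11 ++ (h12 ++ (h13 ++ (h15 ++ (h16 ++ (h17 ++ (h18 ++ (h20 ++ (h24 ++ (h25 ++ (h26 ++ (h29 ++ (h30 ++ (h32 ++ (h35 ++ (h41 ++ (h42 ++ (h44 ++ (h46 ++ (h48 ++ (h50 ++ (h51 ++ (h52 ++ (h53 ++ (h54 ++ (h61 ++ (h64 ++ (h66 ++ (h67 ++ (h72 ++ (h75 ++ (h77 ++ (h79 ++ (h80 ++ (h81 ++ (h82 ++ (h83 ++ (h84 ++ (h85 ++ (h86))))))))))))))))))))))))))))))))))))))))))))))))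

theorem hok : ∀ h ∈ hs, Holds h := happ ok0 (happ ok1 (happ ok2 (happ ok3 (happ ok4 (happ ok7 (happ ok8 (happ ok9 (happ ok10 (happ ok11 (happ ok12 (happ ok13 (happ ok15 (happ ok16 (happ ok17 (happ ok18 (happ ok20 (happ ok24 (happ ok25 (happ ok26 (happ ok29 (happ ok30 (happ ok32 (happ ok35 (happ ok41 (happ ok42 (happ ok44 (happ ok46 (happ ok48 (happ ok50 (happ ok51 (happ ok52 (happ ok53 (happ ok54 (happ ok61 (happ ok64 (happ ok66 (happ ok67 (happ ok72 (happ ok75 (happ ok77 (happ ok79 (happ ok80 (happ ok81 (happ ok82 (happ ok83 (happ ok84 (happ ok85 (ok86))))))))))))))))))))))))))))))))))))))))))))))))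

theorem cok : classOK hs 528 496 595 ONES = true := by decide +kernel

theorem row : ∃ n, Row n (((3 : ℕ) : ℤ), ((2 : ℕ) : ℤ)) := cls_all hok cok (by decide)

end Pool.Agent.H184.G2.D.W32
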