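import Pool.Agent.H184.G2.D.W3300
import Pool.Agent.H184.G2.D.W3301
import Pool.Agent.H184.G2.Cls

set_option autoImplicit false

namespace Pool.Agent.H184.G2.D.W33

open Pool.Agent.H184.G2 Pool.Agent.H184.Gomoku

def hs : List Hdr := h0 ++ (h1 ++ (h2 ++ (h3 ++ (h4 ++ (h5 ++ (h6 ++ (h7 ++ (h8 ++ (h9 ++ (h10 ++ (h11 ++ (h12 ++ (h13 ++ (h14 ++ (h15 ++ (h17 ++ (h19 ++ (h22 ++ (h25 ++ (h26 ++ (h32 ++ (h35 ++ (h37 ++ (h41 ++ (h47 ++ (h50 ++ (h52 ++ (h55 ++ (h56 ++ (h57 ++ (h58 ++ (h59 ++ (h60 ++ (h61))))))))))))))))))))))))))))))))))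

theorem hok : ∀ h ∈ hs, Holds h := happ ok0 (happ ok1 (happ ok2 (happ ok3 (happ ok4 (happ ok5 (happ ok6 (happ ok7 (happ ok8 (happ ok9 (happ ok10 (happ ok11 (happ ok12 (happ ok13 (happ ok14 (happ ok15 (happ ok17 (happ ok19 (happ ok22 (happ ok25 (happ ok26 (happ ok32 (happ ok35 (happ ok37 (happ ok41 (happ ok47 (happ ok50 (happ ok52 (happ ok55 (happ ok56 (happ ok57 (happ ok58 (happ ok59 (happ ok60 (ok61))))))))))))))))))))))))))))))))))

theorem cok : classOK hs 528 495 627 GD = true := by decide +kernel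

theorem row : ∃ n, Row n (((3 : ℕ) : ℤ), ((3 : ℕ) : ℤ)) := cls_dg hok cok (by decide) rfl rfl rfl

end Pool.Agent.H184.G2.D.W33
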