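import Pool.Agent.H184.G2.D.W4000
import Pool.Agent.H184.G2.D.W4001
import Pool.Agent.H184.G2.Cls

set_option autoImplicit false

namespace Pool.Agent.H184.G2.D.W40

open Pool.Agent.H184.G2 Pool.Agent.H184.Gomoku

def hs : List Hdr := h0 ++ (h2 ++ (h6 ++ (h8 ++ (h11 ++ (h13 ++ (h15 ++ (h17 ++ (h18 ++ (h19 ++ (h20 ++ (h21 ++ (h23 ++ (h32 ++ (h34 ++ (h35 ++ (h36 ++ (h38 ++ (h43 ++ (h46 ++ (h47 ++ (h49 ++ (h50 ++ (h52 ++ (h54 ++ (h55 ++ (h56 ++ (h57 ++ (h58 ++ (h59 ++ (h60 ++ (h61 ++ (h62))))))))))))))))))))))))))))))))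

theorem hok : ∀ h ∈ hs, Holds h := happ ok0 (happ ok2 (happ ok6 (happ ok8 (happ ok11 (happ ok13 (happ ok15 (happ ok17 (happ ok18 (happ ok19 (happ ok20 (happ ok21 (happ ok23 (happ ok32 (happ ok34 (happ ok35 (happ ok36 (happ ok38 (happ ok43 (happ ok46 (happ ok47 (happ ok49 (happ ok50 (happ ok52 (happ ok54 (happ ok55 (happ ok56 (happ ok57 (happ ok58 (happ ok59 (happ ok60 (happ ok61 (ok62))))))))))))))))))))))))))))))))

theorem cok : classOK hs 528 527 532 GU = true := by decide +kernel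

theorem row : ∃ n, Row n (((4 : ℕ) : ℤ), ((0 : ℕ) : ℤ)) := cls_up hok cok (by decide) rfl rfl rfl

end Pool.Agent.H184.G2.D.W40
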