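import Pool.Agent.H184.G2.D.W4100
import Pool.Agent.H184.G2.D.W4101
import Pool.Agent.H184.G2.Cls

set_option autoImplicit false

namespace Pool.Agent.H184.G2.D.W41

open Pool.Agent.H184.G2 Pool.Agent.H184.Gomoku

def hs : List Hdr := h0 ++ (h1 ++ (h2 ++ (h3 ++ (h4 ++ (h5 ++ (h6 ++ (h7 ++ (h9 ++ (h10 ++ (h11 ++ (h12 ++ (h13 ++ (h14 ++ (h16 ++ (h17 ++ (h19 ++ (h21 ++ (h22 ++ (h25 ++ (h27 ++ (h29 ++ (h33 ++ (h35 ++ (h36 ++ (h37 ++ (h38 ++ (h39 ++ (h41 ++ (h43 ++ (h45 ++ (h48 ++ (h49 ++ (h50 ++ (h51 ++ (h52 ++ (h53 ++ (h57 ++ (h61 ++ (h62 ++ (h63 ++ (h64 ++ (h68 ++ (h70 ++ (h71 ++ (h73 ++ (h74 ++ (h75 ++ (h76 ++ (h77 ++ (h78 ++ (h79 ++ (h80 ++ (h81)))))))))))))))))))))))))))))))))))))))))))))))))))))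

theorem hok : ∀ h ∈ hs, Holds h := happ ok0 (happ ok1 (happ ok2 (happ ok3 (happ ok4 (happ ok5 (happ ok6 (happ ok7 (happ ok9 (happ ok10 (happ ok11 (happ ok12 (happ ok13 (happ ok14 (happ ok16 (happ ok17 (happ ok19 (happ ok21 (happ ok22 (happ ok25 (happ ok27 (happ ok29 (happ ok33 (happ ok35 (happ ok36 (happ ok37 (happ ok38 (happ ok39 (happ ok41 (happ ok43 (happ ok45 (happ ok48 (happ ok49 (happ ok50 (happ ok51 (happ ok52 (happ ok53 (happ ok57 (happ ok61 (happ ok62 (happ ok63 (happ ok64 (happ ok68 (happ ok70 (happ ok71 (happ ok73 (happ ok74 (happ ok75 (happ ok76 (happ ok77 (happ ok78 (happ ok79 (happ ok80 (ok81)))))))))))))))))))))))))))))))))))))))))))))))))))))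

theorem cok : classOK hs 528 529 564 ONES = true := by decide +kernel

theorem row : ∃ n, Row n (((4 : ℕ) : ℤ), ((1 : ℕ) : ℤ)) := cls_all hok cok (by decide)

end Pool.Agent.H184.G2.D.W41
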