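import Pool.Agent.H184.G2.D.W4200
import Pool.Agent.H184.G2.D.W4201
import Pool.Agent.H184.G2.Cls

set_option autoImplicit false

namespace Pool.Agent.H184.G2.D.W42

open Pool.Agent.H184.G2 Pool.Agent.H184.Gomoku

def hs : List Hdr := h0 ++ (h1 ++ (h2 ++ (h3 ++ (h4 ++ (h5 ++ (h7 ++ (h8 ++ (h9 ++ (h10 ++ (h12 ++ (h13 ++ (h14 ++ (h15 ++ (h16 ++ (h17 ++ (h22 ++ (h24 ++ (h25 ++ (h26 ++ (h29 ++ (h30 ++ (h31 ++ (h33 ++ (h39 ++ (h42 ++ (h43 ++ (h44 ++ (h46 ++ (h48 ++ (h50 ++ (h52 ++ (h53 ++ (h54 ++ (h55 ++ (h56 ++ (h61 ++ (h67 ++ (h69 ++ (h70 ++ (h72 ++ (h73 ++ (h76 ++ (h78 ++ (h79 ++ (h81 ++ (h82 ++ (h83 ++ (h84 ++ (h85 ++ (h86 ++ (h87 ++ (h88 ++ (h89)))))))))))))))))))))))))))))))))))))))))))))))))))))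

theorem hok : ∀ h ∈ hs, Holds h := happ ok0 (happ ok1 (happ ok2 (happ ok3 (happ ok4 (happ ok5 (happ ok7 (happ ok8 (happ ok9 (happ ok10 (happ ok12 (happ ok13 (happ ok14 (happ ok15 (happ ok16 (happ ok17 (happ ok22 (happ ok24 (happ ok25 (happ ok26 (happ ok29 (happ ok30 (happ ok31 (happ ok33 (happ ok39 (happ ok42 (happ ok43 (happ ok44 (happ ok46 (happ ok48 (happ ok50 (happ ok52 (happ ok53 (happ ok54 (happ ok55 (happ ok56 (happ ok61 (happ ok67 (happ ok69 (happ ok70 (happ ok72 (happ ok73 (happ ok76 (happ ok78 (happ ok79 (happ ok81 (happ ok82 (happ ok83 (happ ok84 (happ ok85 (happ ok86 (happ ok87 (happ ok88 (ok89)))))))))))))))))))))))))))))))))))))))))))))))))))))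

theorem cok : classOK hs 528 496 596 ONES = true := by decide +kernel

theorem row : ∃ n, Row n (((4 : ℕ) : ℤ), ((2 : ℕ) : ℤ)) := cls_all hok cok (by decide)

end Pool.Agent.H184.G2.D.W42
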