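import Pool.Agent.H184.G2.D.W4300
import Pool.Agent.H184.G2.D.W4301
import Pool.Agent.H184.G2.Cls

set_option autoImplicit false

namespace Pool.Agent.H184.G2.D.W43

open Pool.Agent.H184.G2 Pool.Agent.H184.Gomoku

def hs : List Hdr := h0 ++ (h1 ++ (h2 ++ (h3 ++ (h5 ++ (h6 ++ (h7 ++ (h8 ++ (h9 ++ (h10 ++ (h11 ++ (h13 ++ (h14 ++ (h15 ++ (h17 ++ (h18 ++ (h19 ++ (h20 ++ (h23 ++ (h28 ++ (h29 ++ (h30 ++ (h32 ++ (h38 ++ (h41 ++ (h42 ++ (h44 ++ (h47 ++ (h50 ++ (h52 ++ (h54 ++ (h55 ++ (h56 ++ (h60 ++ (h65 ++ (h68 ++ (h70 ++ (h74 ++ (h76 ++ (h78 ++ (h79 ++ (h80 ++ (h81 ++ (h82 ++ (h83 ++ (h84 ++ (h85 ++ (h86 ++ (h87))))))))))))))))))))))))))))))))))))))))))))))))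

theorem hok : ∀ h ∈ hs, Holds h := happ ok0 (happ ok1 (happ ok2 (happ ok3 (happ ok5 (happ ok6 (happ ok7 (happ ok8 (happ ok9 (happ ok10 (happ ok11 (happ ok13 (happ ok14 (happ ok15 (happ ok17 (happ ok18 (happ ok19 (happ ok20 (happ ok23 (happ ok28 (happ ok29 (happ ok30 (happ ok32 (happ ok38 (happ ok41 (happ ok42 (happ ok44 (happ ok47 (happ ok50 (happ ok52 (happ ok54 (happ ok55 (happ ok56 (happ ok60 (happ ok65 (happ ok68 (happ ok70 (happ ok74 (happ ok76 (happ ok78 (happ ok79 (happ ok80 (happ ok81 (happ ok82 (happ ok83 (happ ok84 (happ ok85 (happ ok86 (ok87))))))))))))))))))))))))))))))))))))))))))))))))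

theorem cok : classOK hs 528 496 628 ONES = true := by decide +kernel

theorem row : ∃ n, Row n (((4 : ℕ) : ℤ), ((3 : ℕ) : ℤ)) := cls_all hok cok (by decide)

end Pool.Agent.H184.G2.D.W43
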