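import Pool.Agent.H184.G2.D.W4400
import Pool.Agent.H184.G2.D.W4401
import Pool.Agent.H184.G2.Cls

set_option autoImplicit false

namespace Pool.Agent.H184.G2.D.W44

open Pool.Agent.H184.G2 Pool.Agent.H184.Gomoku

def hs : List Hdr := h0 ++ (h1 ++ (h2 ++ (h3 ++ (h4 ++ (h5 ++ (h6 ++ (h7 ++ (h8 ++ (h9 ++ (h10 ++ (h11 ++ (h13 ++ (h14 ++ (h15 ++ (h17 ++ (h18 ++ (h20 ++ (h27 ++ (h38 ++ (h46 ++ (h53 ++ (h57 ++ (h62 ++ (h67 ++ (h70 ++ (h72 ++ (h74 ++ (h76 ++ (h77 ++ (h78 ++ (h79 ++ (h80 ++ (h81 ++ (h82))))))))))))))))))))))))))))))))))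

theorem hok : ∀ h ∈ hs, Holds h := happ ok0 (happ ok1 (happ ok2 (happ ok3 (happ ok4 (happ ok5 (happ ok6 (happ ok7 (happ ok8 (happ ok9 (happ ok10 (happ ok11 (happ ok13 (happ ok14 (happ ok15 (happ ok17 (happ ok18 (happ ok20 (happ ok27 (happ ok38 (happ ok46 (happ ok53 (happ ok57 (happ ok62 (happ ok67 (happ ok70 (happ ok72 (happ ok74 (happ ok76 (happ ok77 (happ ok78 (happ ok79 (happ ok80 (happ ok81 (ok82))))))))))))))))))))))))))))))))))

theorem cok : classOK hs 528 495 660 GD = true := by decide +kernel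

theorem row : ∃ n, Row n (((4 : ℕ) : ℤ), ((4 : ℕ) : ℤ)) := cls_dg hok cok (by decide) rfl rfl rfl

end Pool.Agent.H184.G2.D.W44
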