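import Pool.Agent.H184.G2.D.W5000
import Pool.Agent.H184.G2.D.W5001
import Pool.Agent.H184.G2.Cls

set_option autoImplicit false

namespace Pool.Agent.H184.G2.D.W50

open Pool.Agent.H184.G2 Pool.Agent.H184.Gomoku

def hs : List Hdr := h0 ++ (h2 ++ (h5 ++ (h7 ++ (h10 ++ (h12 ++ (h17 ++ (h20 ++ (h22 ++ (h23 ++ (h24 ++ (h25 ++ (h26 ++ (h27 ++ (h29 ++ (h36 ++ (h39 ++ (h40 ++ (h44 ++ (h48 ++ (h49 ++ (h51 ++ (h52 ++ (h54 ++ (h56 ++ (h57 ++ (h58 ++ (h59 ++ (h60 ++ (h61)))))))))))))))))))))))))))))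

theorem hok : ∀ h ∈ hs, Holds h := happ ok0 (happ ok2 (happ ok5 (happ ok7 (happ ok10 (happ ok12 (happ ok17 (happ ok20 (happ ok22 (happ ok23 (happ ok24 (happ ok25 (happ ok26 (happ ok27 (happ ok29 (happ ok36 (happ ok39 (happ ok40 (happ ok44 (happ ok48 (happ ok49 (happ ok51 (happ ok52 (happ ok54 (happ ok56 (happ ok57 (happ ok58 (happ ok59 (happ ok60 (ok61)))))))))))))))))))))))))))))

theorem cok : classOK hs 528 527 533 GU = true := by decide +kernel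

theorem row : ∃ n, Row n (((5 : ℕ) : ℤ), ((0 : ℕ) : ℤ)) := cls_up hok cok (by decide) rfl rfl rfl

end Pool.Agent.H184.G2.D.W50
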