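import Pool.Agent.H184.G2.D.W5100
import Pool.Agent.H184.G2.D.W5101
import Pool.Agent.H184.G2.Cls

set_option autoImplicit false

namespace Pool.Agent.H184.G2.D.W51

open Pool.Agent.H184.G2 Pool.Agent.H184.Gomoku

def hs : List Hdr := h0 ++ (h1 ++ (h2 ++ (h3 ++ (h4 ++ (h5 ++ (h6 ++ (h7 ++ (h9 ++ (h10 ++ (h11 ++ (h12 ++ (h13 ++ (h14 ++ (h16 ++ (h19 ++ (h21 ++ (h22 ++ (h23 ++ (h27 ++ (h30 ++ (h31 ++ (h33 ++ (h34 ++ (h35 ++ (h37 ++ (h40 ++ (h42 ++ (h43 ++ (h44 ++ (h45 ++ (h46 ++ (h49 ++ (h53 ++ (h55 ++ (h56 ++ (h58 ++ (h61 ++ (h63 ++ (h64 ++ (h65 ++ (h66 ++ (h67 ++ (h68 ++ (h69 ++ (h70 ++ (h71 ++ (h72 ++ (h73))))))))))))))))))))))))))))))))))))))))))))))))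

theorem hok : ∀ h ∈ hs, Holds h := happ ok0 (happ ok1 (happ ok2 (happ ok3 (happ ok4 (happ ok5 (happ ok6 (happ ok7 (happ ok9 (happ ok10 (happ ok11 (happ ok12 (happ ok13 (happ ok14 (happ ok16 (happ ok19 (happ ok21 (happ ok22 (happ ok23 (happ ok27 (happ ok30 (happ ok31 (happ ok33 (happ ok34 (happ ok35 (happ ok37 (happ ok40 (happ ok42 (happ ok43 (happ ok44 (happ ok45 (happ ok46 (happ ok49 (happ ok53 (happ ok55 (happ ok56 (happ ok58 (happ ok61 (happ ok63 (happ ok64 (happ ok65 (happ ok66 (happ ok67 (happ ok68 (happ ok69 (happ ok70 (happ ok71 (happ ok72 (ok73))))))))))))))))))))))))))))))))))))))))))))))))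

theorem cok : classOK hs 528 496 565 ONES = true := by decide +kernel

theorem row : ∃ n, Row n (((5 : ℕ) : ℤ), ((1 : ℕ) : ℤ)) := cls_all hok cok (by decide)

end Pool.Agent.H184.G2.D.W51
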