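import Pool.Agent.H184.G2.D.W5200
import Pool.Agent.H184.G2.D.W5201
import Pool.Agent.H184.G2.Cls

set_option autoImplicit false

namespace Pool.Agent.H184.G2.D.W52

open Pool.Agent.H184.G2 Pool.Agent.H184.Gomoku

def hs : List Hdr := h0 ++ (h1 ++ (h2 ++ (h3 ++ (h4 ++ (h5 ++ (h6 ++ (h7 ++ (h8 ++ (h10 ++ (h11 ++ (h12 ++ (h13 ++ (h14 ++ (h15 ++ (h17 ++ (h20 ++ (h22 ++ (h23 ++ (h24 ++ (h28 ++ (h31 ++ (h32 ++ (h34 ++ (h35 ++ (h36 ++ (h39 ++ (h41 ++ (h44 ++ (h46 ++ (h47 ++ (h48 ++ (h49 ++ (h50 ++ (h53 ++ (h57 ++ (h59 ++ (h61 ++ (h63 ++ (h65 ++ (h66 ++ (h67 ++ (h68 ++ (h69 ++ (h70 ++ (h71 ++ (h72 ++ (h73 ++ (h74))))))))))))))))))))))))))))))))))))))))))))))))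

theorem hok : ∀ h ∈ hs, Holds h := happ ok0 (happ ok1 (happ ok2 (happ ok3 (happ ok4 (happ ok5 (happ ok6 (happ ok7 (happ ok8 (happ ok10 (happ ok11 (happ ok12 (happ ok13 (happ ok14 (happ ok15 (happ ok17 (happ ok20 (happ ok22 (happ ok23 (happ ok24 (happ ok28 (happ ok31 (happ ok32 (happ ok34 (happ ok35 (happ ok36 (happ ok39 (happ ok41 (happ ok44 (happ ok46 (happ ok47 (happ ok48 (happ ok49 (happ ok50 (happ ok53 (happ ok57 (happ ok59 (happ ok61 (happ ok63 (happ ok65 (happ ok66 (happ ok67 (happ ok68 (happ ok69 (happ ok70 (happ ok71 (happ ok72 (happ ok73 (ok74))))))))))))))))))))))))))))))))))))))))))))))))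

theorem cok : classOK hs 528 560 597 ONES = true := by decide +kernel

theorem row : ∃ n, Row n (((5 : ℕ) : ℤ), ((2 : ℕ) : ℤ)) := cls_all hok cok (by decide)

end Pool.Agent.H184.G2.D.W52
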