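import Pool.Agent.H184.G2.D.W5300
import Pool.Agent.H184.G2.D.W5301
import Pool.Agent.H184.G2.Cls

set_option autoImplicit false

namespace Pool.Agent.H184.G2.D.W53

open Pool.Agent.H184.G2 Pool.Agent.H184.Gomoku

def hs : List Hdr := h0 ++ (h1 ++ (h2 ++ (h3 ++ (h4 ++ (h5 ++ (h7 ++ (h8 ++ (h9 ++ (h10 ++ (h11 ++ (h12 ++ (h13 ++ (h14 ++ (h15 ++ (h17 ++ (h19 ++ (h21 ++ (h22 ++ (h24 ++ (h25 ++ (h26 ++ (h30 ++ (h34 ++ (h35 ++ (h36 ++ (h37 ++ (h39 ++ (h41 ++ (h44 ++ (h46 ++ (h47 ++ (h48 ++ (h49 ++ (h52 ++ (h55 ++ (h57 ++ (h58 ++ (h60 ++ (h62 ++ (h65 ++ (h67 ++ (h68 ++ (h69 ++ (h70 ++ (h71 ++ (h72 ++ (h73 ++ (h74 ++ (h75)))))))))))))))))))))))))))))))))))))))))))))))))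

theorem hok : ∀ h ∈ hs, Holds h := happ ok0 (happ ok1 (happ ok2 (happ ok3 (happ ok4 (happ ok5 (happ ok7 (happ ok8 (happ ok9 (happ ok10 (happ ok11 (happ ok12 (happ ok13 (happ ok14 (happ ok15 (happ ok17 (happ ok19 (happ ok21 (happ ok22 (happ ok24 (happ ok25 (happ ok26 (happ ok30 (happ ok34 (happ ok35 (happ ok36 (happ ok37 (happ ok39 (happ ok41 (happ ok44 (happ ok46 (happ ok47 (happ ok48 (happ ok49 (happ ok52 (happ ok55 (happ ok57 (happ ok58 (happ ok60 (happ ok62 (happ ok65 (happ ok67 (happ ok68 (happ ok69 (happ ok70 (happ ok71 (happ ok72 (happ ok73 (happ ok74 (ok75)))))))))))))))))))))))))))))))))))))))))))))))))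

theorem cok : classOK hs 528 560 629 ONES = true := by decide +kernel

theorem row : ∃ n, Row n (((5 : ℕ) : ℤ), ((3 : ℕ) : ℤ)) := cls_all hok cok (by decide)

end Pool.Agent.H184.G2.D.W53
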