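import Pool.Agent.H184.G2.D.W5400
import Pool.Agent.H184.G2.D.W5401
import Pool.Agent.H184.G2.D.W5402
import Pool.Agent.H184.G2.Cls

set_option autoImplicit false

namespace Pool.Agent.H184.G2.D.W54

open Pool.Agent.H184.G2 Pool.Agent.H184.Gomoku

def hs : List Hdr := h0 ++ (h1 ++ (h2 ++ (h3 ++ (h4 ++ (h5 ++ (h6 ++ (h7 ++ (h8 ++ (h9 ++ (h10 ++ (h11 ++ (h12 ++ (h13 ++ (h14 ++ (h15 ++ (h17 ++ (h18 ++ (h19 ++ (h20 ++ (h21 ++ (h22 ++ (h25 ++ (h28 ++ (h31 ++ (h32 ++ (h33 ++ (h34 ++ (h35 ++ (h36 ++ (h38 ++ (h42 ++ (h47 ++ (h48 ++ (h49 ++ (h50 ++ (h51 ++ (h52 ++ (h54 ++ (h57 ++ (h59 ++ (h60 ++ (h61 ++ (h62 ++ (h69 ++ (h73 ++ (h76 ++ (h82 ++ (h86 ++ (h90 ++ (h93 ++ (h94 ++ (h96 ++ (h97 ++ (h98 ++ (h99 ++ (h100 ++ (h101 ++ (h102 ++ (h103)))))))))))))))))))))))))))))))))))))))))))))))))))))))))))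

theorem hok : ∀ h ∈ hs, Holds h := happ ok0 (happ ok1 (happ ok2 (happ ok3 (happ ok4 (happ ok5 (happ ok6 (happ ok7 (happ ok8 (happ ok9 (happ ok10 (happ ok11 (happ ok12 (happ ok13 (happ ok14 (happ ok15 (happ ok17 (happ ok18 (happ ok19 (happ ok20 (happ ok21 (happ ok22 (happ ok25 (happ ok28 (happ ok31 (happ ok32 (happ ok33 (happ ok34 (happ ok35 (happ ok36 (happ ok38 (happ ok42 (happ ok47 (happ ok48 (happ ok49 (happ ok50 (happ ok51 (happ ok52 (happ ok54 (happ ok57 (happ ok59 (happ ok60 (happ ok61 (happ ok62 (happ ok69 (happ ok73 (happ ok76 (happ ok82 (happ ok86 (happ ok90 (happ ok93 (happ ok94 (happ ok96 (happ ok97 (happ ok98 (happ ok99 (happ ok100 (happ ok101 (happ ok102 (ok103)))))))))))))))))))))))))))))))))))))))))))))))))))))))))))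

theorem cok : classOK hs 528 592 661 ONES = true := by decide +kernel

theorem row : ∃ n, Row n (((5 : ℕ) : ℤ), ((4 : ℕ) : ℤ)) := cls_all hok cok (by decide)

end Pool.Agent.H184.G2.D.W54
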