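import Pool.Agent.H184.G2.D.W5500
import Pool.Agent.H184.G2.D.W5501
import Pool.Agent.H184.G2.Cls

set_option autoImplicit false

namespace Pool.Agent.H184.G2.D.W55

open Pool.Agent.H184.G2 Pool.Agent.H184.Gomoku

def hs : List Hdr := h0 ++ (h1 ++ (h2 ++ (h3 ++ (h4 ++ (h5 ++ (h6 ++ (h7 ++ (h8 ++ (h10 ++ (h11 ++ (h12 ++ (h13 ++ (h14 ++ (h16 ++ (h17 ++ (h20 ++ (h27 ++ (h38 ++ (h46 ++ (h54 ++ (h58 ++ (h64 ++ (h69 ++ (h73 ++ (h75 ++ (h78 ++ (h81 ++ (h82 ++ (h83 ++ (h84 ++ (h85 ++ (h86))))))))))))))))))))))))))))))))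

theorem hok : ∀ h ∈ hs, Holds h := happ ok0 (happ ok1 (happ ok2 (happ ok3 (happ ok4 (happ ok5 (happ ok6 (happ ok7 (happ ok8 (happ ok10 (happ ok11 (happ ok12 (happ ok13 (happ ok14 (happ ok16 (happ ok17 (happ ok20 (happ ok27 (happ ok38 (happ ok46 (happ ok54 (happ ok58 (happ ok64 (happ ok69 (happ ok73 (happ ok75 (happ ok78 (happ ok81 (happ ok82 (happ ok83 (happ ok84 (happ ok85 (ok86))))))))))))))))))))))))))))))))

theorem cok : classOK hs 528 561 693 GD = true := by decide +kernel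

theorem row : ∃ n, Row n (((5 : ℕ) : ℤ), ((5 : ℕ) : ℤ)) := cls_dg hok cok (by decide) rfl rfl rfl

end Pool.Agent.H184.G2.D.W55
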